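import Pool.Agent.WPP.Defs
import Pool.Agent.UM.Modes
import Pool.Agent.UM.Parm
import Pool.Agent.Lib_helper26.TQ.Field

/-!
# The parity mode, the PSPACE mode, coin tosses
-/

set_option autoImplicit false
set_option linter.unusedSectionVars false

namespace Pool.Agent.WPP

open Finset
open Pool.Agent.Lib_helper26.TQ (Mach constM constM_accepts tr)
open Pool.Agent.UM (InPP InParity InPSPACE InGap)

/-- the machine with other accepting states -/
def withAcc {I A V : Type} (M : Mach I A V) (a : V → Prop) : Mach I A V where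
  start := M.start
  query := M.query
  next := M.next
  acc := a

theorem withAcc_state {I A V : Type} (M : Mach I A V) (a : V → Prop) (x : I → A) (t : ℕ) :
    (withAcc M a).state x t = M.state x t := by
  induction t with
  | zero => rfl
  | succ t ih =>
    show (withAcc M a).next t _ _ = M.next t _ _
    rw [ih]
    rfl

theorem dec_compl {I A V : Type} {T : ℕ} {L : (I → A) → Prop} (h : Dec I A V T L) :
    Dec I A V T fun x => ¬ L x := by
  obtain ⟨M, hM⟩ := h
  refine ⟨withAcc M fun v => ¬ M.acc v, fun x => ?_⟩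
  show _ ↔ ¬ M.acc ((withAcc M _).state x T)
  rw [withAcc_state]
  exact not_congr (hM x)

theorem dec_const {I A V : Type} {T : ℕ} {L : (I → A) → Prop} (h : Dec I A V T L) (b : Prop) :
    Dec I A V T fun _ => b := by
  obtain ⟨M, -⟩ := h
  exact ⟨withAcc M fun _ => b, fun x => Iff.rfl⟩

/-- the PP mode is contained in the PSPACE mode -/
theorem pp_pspace {I A V : Type} {T W : ℕ} {L : (I → A) → Prop} (h : InPP (Dec I A V T) W L) :
    InPSPACE (Dec I A V T) (W * (W + 3) / 2) L :=
  Pool.Agent.UM.MODES.pp (fun _ b h => dec_const h b) h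

/-- the parity mode is contained in the PSPACE mode -/
theorem parity_pspace {I A V : Type} {T W : ℕ} {L : (I → A) → Prop}
    (h : InParity (Dec I A V T) W L) : InPSPACE (Dec I A V T) (2 * W) L :=
  Pool.Agent.UM.MODES.parity (fun _ b h => dec_const h b) (fun _ h => dec_compl h) h

variable {n w : ℕ}

/-- the machine for the term with the indices `p` -/
noncomputable def termM (p : Fin n × Fin n) : Mach (Cell n) (GaloisField 2 w) (GaloisField 2 w) where
  start := 1
  query := fun t _ => if t = 0 then Sum.inr (Sum.inr (ad p.1 p.2)) else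
    if t = 1 then Sum.inl p.1 else Sum.inr (Sum.inl p.2)
  next := fun t v a => if t < 3 then v * a else v
  acc := fun v => tr v = 1

/-- the term -/
def term {K : Type} [Field K] (u : Cell n → K) (p : Fin n × Fin n) : K :=
  u (Sum.inr (Sum.inr (ad p.1 p.2))) * u (Sum.inl p.1) * u (Sum.inr (Sum.inl p.2))

theorem termM_next (p : Fin n × Fin n) (t : ℕ) (v a : GaloisField 2 w) :
    (termM p).next t v a = if t < 3 then v * a else v := rfl

theorem termM_state (p : Fin n × Fin n) (u : Cell n → GaloisField 2 w) (t : ℕ) :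
    (termM p).state u (t + 3) = term u p := by
  induction t with
  | zero =>
    show (1 * u (Sum.inr (Sum.inr (ad p.1 p.2)))) * u (Sum.inl p.1) * u (Sum.inr (Sum.inl p.2)) = _
    rw [one_mul]
    rfl
  | succ t ih =>
    show (termM p).next (t + 3) ((termM p).state u (t + 3)) _ = _
    rw [ih, termM_next, if_neg (by omega)]

theorem tr_hank (u : Cell n → GaloisField 2 w) :
    tr (hank u) = ∑ p : Fin n × Fin n, tr (term u p) := by
  rw [Fintype.sum_prod_type]
  unfold hank tr
  rw [map_sum]
  refine Finset.sum_congr rfl fun i _ => ?_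
  rw [map_sum]
  rfl

/-- the trace of the form is in parity mode -/
theorem hank_parity (hn : 0 < n) {T : ℕ} (hT : 3 ≤ T) :
    InParity (Dec (Cell n) (GaloisField 2 w) (GaloisField 2 w) T) (Nat.clog 2 (n ^ 2)) TrHank := by
  obtain ⟨t, rfl⟩ : ∃ t, T = t + 3 := ⟨T - 3, by omega⟩
  have hD : ∀ p : Fin n × Fin n, Dec (Cell n) (GaloisField 2 w) (GaloisField 2 w) (t + 3)
      fun u => tr (term u p) = 1 := by
    intro p
    refine ⟨termM p, fun u => ?_⟩
    show _ ↔ tr ((termM p).state u (t + 3)) = 1
    rw [termM_state]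
  have h := Pool.Agent.UM.PARM.par_sum (w := Nat.clog 2 (n ^ 2))
    (Dec (Cell n) (GaloisField 2 w) (GaloisField 2 w) (t + 3))
    (dec_const (hD (⟨0, hn⟩, ⟨0, hn⟩)) False) (fun p u => tr (term u p)) hD (by
      refine le_trans (le_of_eq ?_) (Nat.le_pow_clog (by norm_num) _)
      simp only [Fintype.card_prod, Fintype.card_fin]
      ring)
  have e : (TrHank : (Cell n → GaloisField 2 w) → Prop) = fun u => ∑ p, tr (term u p) = 1 := by
    funext u
    rw [← tr_hank]
    rfl
  rw [e]
  exact h

/-- the machine with fixed coins -/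
def fixM {b : ℕ} {I A V : Type} (M : CMach b I A V) (c : ℕ → Fin b → Bool) : Mach I A V where
  start := M.start
  query := M.query
  next := fun t v a => M.next t v a (c t)
  acc := M.acc

theorem fixM_state {b : ℕ} {I A V : Type} (M : CMach b I A V) (c : ℕ → Fin b → Bool) (x : I → A)
    (t : ℕ) : (fixM M c).state x t = M.state x c t := by
  induction t with
  | zero => rfl
  | succ t ih =>
    show (fixM M c).next t ((fixM M c).state x t) (x ((fixM M c).query t _)) = _
    rw [ih]
    rfl

/-- coins are random bits -/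
theorem coin_pp {b : ℕ} {I A V : Type} {T : ℕ} {L : (I → A) → Prop} (h : InPPCoin b I A T V L) :
    InPP (Dec I A V T) (b * T) L := by
  classical
  obtain ⟨M, hM⟩ := h
  have hc : Fintype.card (Fin T → Fin b → Bool) = 2 ^ (b * T) := by
    rw [Fintype.card_fun, Fintype.card_fun, Fintype.card_bool, Fintype.card_fin, Fintype.card_fin,
      ← pow_mul]
  let e : (Fin T → Fin b → Bool) ≃ Fin (2 ^ (b * T)) := Fintype.equivFinOfCardEq hc
  refine ⟨fun ω x => (fixM M (ext (e.symm ω))).Accepts T x, fun ω => ⟨_, fun x => Iff.rfl⟩,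
    fun x => ?_⟩
  rw [hM x]
  have h1 : Nat.card {c : Fin T → Fin b → Bool // M.acc (M.state x (ext c) T)} =
      Nat.card {ω : Fin (2 ^ (b * T)) // (fixM M (ext (e.symm ω))).Accepts T x} := by
    refine Nat.card_congr (Equiv.subtypeEquiv e fun c => ?_)
    rw [Equiv.symm_apply_apply]
    show _ ↔ M.acc ((fixM M (ext c)).state x T)
    rw [fixM_state]
  rw [h1]

end Pool.Agent.WPP
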