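import Pool.Agent.WPP.Low
import Pool.Agent.WPP.Up

/-!
# The lower bound for unbounded error with coin tosses
-/

set_option autoImplicit false
set_option linter.unusedSectionVars false

namespace Pool.Agent.WPP

variable {n w : ℕ} {V : Type}

theorem coin_low (k T b : ℕ) [Fintype V] (hk : 1 ≤ k) (hn : 0 < n)
    (hw : 2 ^ (16 * k + 16) * k ^ 2 ≤ w) (hb : 2 ^ (16 * k + 17) * k ^ 3 * b ≤ w)
    (hT : T ≤ k * (4 * n)) (h : InPPCoin b (Cell n) (GaloisField 2 w) T V TrHank) :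
    (4 * n * w : ℝ) ≤ 2 ^ (16 * k + 17) * k ^ 2 * Real.logb 2 (Fintype.card V) := by
  have h1 := low k T (b * T) hk hn hw hT (Or.inl (coin_pp h))
  have hT' : (T : ℝ) ≤ k * (4 * n) := by exact_mod_cast hT
  have hb' : (2 : ℝ) ^ (16 * k + 17) * k ^ 3 * b ≤ w := by exact_mod_cast hb
  obtain ⟨X, hX⟩ : ∃ X : ℝ, X = 2 ^ (16 * k + 16) := ⟨_, rfl⟩
  have e1 : (2 : ℝ) ^ (16 * k + 17) = X * 2 := by
    rw [hX, ← pow_succ]
  have hX0 : 0 < X := by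
    rw [hX]
    positivity
  rw [e1] at hb' ⊢
  rw [← hX] at h1
  push_cast at h1
  have h2 : X * (k : ℝ) ^ 2 * ((b : ℝ) * T) ≤ 2 * n * w := by
    calc X * (k : ℝ) ^ 2 * ((b : ℝ) * T) ≤ X * (k : ℝ) ^ 2 * ((b : ℝ) * (k * (4 * n))) := by gcongr
      _ = 2 * n * (X * 2 * k ^ 3 * b) := by ring
      _ ≤ 2 * n * w := by gcongr
  have h3 : X * (k : ℝ) ^ 2 * ((b : ℝ) * T + Real.logb 2 (Fintype.card V)) =
      X * (k : ℝ) ^ 2 * ((b : ℝ) * T) + X * (k : ℝ) ^ 2 * Real.logb 2 (Fintype.card V) := by ring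
  rw [h3] at h1
  have h4 : X * 2 * (k : ℝ) ^ 2 * Real.logb 2 (Fintype.card V) =
      2 * (X * (k : ℝ) ^ 2 * Real.logb 2 (Fintype.card V)) := by ring
  rw [h4]
  linarith

end Pool.Agent.WPP
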