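import Pool.Agent.Lib_helper26.TQ.Defs
import Pool.Agent.UM.Defs

/-!
# Random access machines on words: the Hankel form, coin tosses
-/

set_option autoImplicit false

namespace Pool.Agent.WPP

open Pool.Agent.Lib_helper26.TQ (Mach)

/-- The input cells: `n` words `x i`, `n` words `y j` and `2 n` words `z l`. -/
abbrev Cell (n : ℕ) : Type := Fin n ⊕ Fin n ⊕ Fin (2 * n)

/-- The sum of the indices `i, j < n` as an index `< 2 n`. -/
def ad {n : ℕ} (i j : Fin n) : Fin (2 * n) := ⟨i.val + j.val, by omega⟩

/-- The form `∑ z (i + j) * x i * y j`, the sum over all `i, j < n`. -/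
def hank {n : ℕ} {K : Type} [Field K] (u : Cell n → K) : K :=
  ∑ i : Fin n, ∑ j : Fin n,
    u (Sum.inr (Sum.inr (ad i j))) * u (Sum.inl i) * u (Sum.inr (Sum.inl j))

/-- The trace of the form, for words in the field with `2 ^ w` elements, is one. -/
def TrHank {n w : ℕ} (u : Cell n → GaloisField 2 w) : Prop :=
  Algebra.trace (ZMod 2) (GaloisField 2 w) (hank u) = 1

/-- The sets of inputs decided in `T` steps by a machine with the memory states `V`. -/
def Dec (I A V : Type) (T : ℕ) (L : (I → A) → Prop) : Prop :=
  ∃ M : Mach I A V, ∀ x, L x ↔ M.Accepts T x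

/-- A machine that also tosses `b` coins at each step. -/
structure CMach (b : ℕ) (I A V : Type) where
  /-- initial state -/
  start : V
  /-- the cell read at time `t` in state `v` -/
  query : ℕ → V → I
  /-- next state, depending on the word read and on the coins -/
  next : ℕ → V → A → (Fin b → Bool) → V
  /-- accepting states -/
  acc : V → Prop

/-- The state after `t` steps on input `x` with the coins `c`. -/
def CMach.state {b : ℕ} {I A V : Type} (M : CMach b I A V) (x : I → A) (c : ℕ → Fin b → Bool) :
    ℕ → V
  | 0 => M.start
  | t + 1 => M.next t (M.state x c t) (x (M.query t (M.state x c t))) (c t)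

/-- The coins of `T` steps (and `false` afterwards). -/
def ext {b T : ℕ} (c : Fin T → Fin b → Bool) (t : ℕ) : Fin b → Bool :=
  if h : t < T then c ⟨t, h⟩ else fun _ => false

/-- Unbounded error: a machine with states `V` that tosses `b` coins at each step accepts in `T`
steps for more than half of the `2 ^ (b T)` results of the tosses exactly the inputs in `L`. -/
def InPPCoin (b : ℕ) (I A : Type) (T : ℕ) (V : Type) (L : (I → A) → Prop) : Prop :=
  ∃ M : CMach b I A V, ∀ x, L x ↔
    2 ^ (b * T) < 2 * Nat.card {c : Fin T → Fin b → Bool // M.acc (M.state x (ext c) T)}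

end Pool.Agent.WPP
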