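import Pool.Agent.WPP.Defs
import Pool.Agent.Lib_helper26.TS.Hits

/-!
# Few words `z` make a Hankel minor vanish on a given vector
-/

set_option autoImplicit false

namespace Pool.Agent.WPP

open Finset
open Pool.Agent.Lib_helper26.TS (fil mem_fil fil_congr)

variable {K : Type} [Field K] [Fintype K] [DecidableEq K] {n : ℕ}

/-- the rows of `A` vanish on the vector `d` with support in `B` -/
def Van (A B : Finset (Fin n)) (z : Fin (2 * n) → K) (d : Fin n → K) : Prop :=
  ∀ i ∈ A, ∑ j ∈ B, z (ad i j) * d j = 0

/-- the number of the words `z` -/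
theorem card_van (A B : Finset (Fin n)) (d : Fin n → K) (hd : ∃ j ∈ B, d j ≠ 0) :
    (fil fun z : Fin (2 * n) → K => Van A B z d).card * Fintype.card K ^ A.card ≤
      Fintype.card K ^ (2 * n) := by
  classical
  obtain ⟨j0, hj0, hdj0⟩ := hd
  -- the last index of the support
  set S := B.filter fun j => d j ≠ 0 with hS
  have hSne : S.Nonempty := ⟨j0, by rw [hS, mem_filter]; exact ⟨hj0, hdj0⟩⟩
  set m := S.max' hSne with hm
  have hmS : m ∈ S := S.max'_mem hSne
  have hmB : m ∈ B := (mem_filter.1 hmS).1
  have hdm : d m ≠ 0 := (mem_filter.1 hmS).2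
  have hlast : ∀ j ∈ B, m < j → d j = 0 := by
    intro j hj hmj
    by_contra h
    have : j ≤ m := S.le_max' j (by rw [hS, mem_filter]; exact ⟨hj, h⟩)
    exact absurd hmj (not_lt.2 this)
  set U : Finset (Fin (2 * n)) := A.image fun i => ad i m with hU
  have hUc : U.card = A.card := by
    rw [hU]
    apply card_image_of_injective
    intro i i' h
    have h1 : (ad i m).val = (ad i' m).val := congrArg Fin.val h
    have h2 : i.val + m.val = i'.val + m.val := h1
    apply Fin.ext
    omega
  -- two solutions that agree outside `U` are equal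
  have key : ∀ z z' : Fin (2 * n) → K, Van A B z d → Van A B z' d → (∀ l, l ∉ U → z l = z' l) →
      z = z' := by
    intro z z' hz hz' h
    have h1 : ∀ (a : ℕ) (l : Fin (2 * n)), l.val = a → z l = z' l := by
      intro a
      induction a using Nat.strong_induction_on with
      | _ a ih =>
        intro l hl
        by_cases hlU : l ∈ U
        · rw [hU, mem_image] at hlU
          obtain ⟨i, hi, rfl⟩ := hlU
          have e1 := hz i hi
          have e2 := hz' i hi
          rw [← Finset.add_sum_erase _ _ hmB] at e1 e2
          have e3 : ∑ j ∈ B.erase m, z (ad i j) * d j = ∑ j ∈ B.erase m, z' (ad i j) * d j := by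
            refine Finset.sum_congr rfl fun j hj => ?_
            rw [mem_erase] at hj
            rcases lt_or_ge m j with hmj | hmj
            · rw [hlast j hj.2 hmj, mul_zero, mul_zero]
            · have hlt : j.val < m.val := lt_of_le_of_ne hmj fun h => hj.1 (Fin.ext h)
              rw [ih (ad i j).val (by
                rw [← hl]
                show i.val + j.val < i.val + m.val
                omega) (ad i j) rfl]
          have e4 : z (ad i m) * d m = z' (ad i m) * d m := by
            rw [e3] at e1
            exact add_right_cancel (e1.trans e2.symm)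
          exact mul_right_cancel₀ hdm e4
        · exact h l hlU
    funext l
    exact h1 l.val l rfl
  -- injection
  have hinj : (fil fun z : Fin (2 * n) → K => Van A B z d).card ≤
      Fintype.card ({l : Fin (2 * n) // l ∉ U} → K) := by
    rw [← card_univ]
    refine card_le_card_of_injOn (fun z l => z l.1) (fun _ _ => mem_coe.2 (mem_univ _)) ?_
    intro z hz z' hz' h
    have hz1 : Van A B z d := (mem_fil (P := fun z : Fin (2 * n) → K => Van A B z d)).1 (mem_coe.1 hz)
    have hz2 : Van A B z' d := (mem_fil (P := fun z : Fin (2 * n) → K => Van A B z d)).1 (mem_coe.1 hz')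
    exact key z z' hz1 hz2 fun l hl => congrFun h ⟨l, hl⟩
  have hcard : Fintype.card ({l : Fin (2 * n) // l ∉ U} → K) * Fintype.card K ^ A.card =
      Fintype.card K ^ (2 * n) := by
    rw [Fintype.card_fun, Fintype.card_subtype_compl, Fintype.card_fin, ← pow_add]
    congr 1
    have h1 : Fintype.card {x // x ∈ U} = A.card := by rw [Fintype.card_coe, hUc]
    rw [h1]
    have h2 : A.card ≤ n := by
      have := card_le_univ A
      rwa [Fintype.card_fin] at this
    omega
  calc _ ≤ Fintype.card ({l : Fin (2 * n) // l ∉ U} → K) * Fintype.card K ^ A.card :=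
        Nat.mul_le_mul_right _ hinj
    _ = _ := hcard

/-- the number of all pairs -/
theorem sum_van (A B : Finset (Fin n)) :
    (∑ z : Fin (2 * n) → K, ((fil fun d : Fin n → K => Van A B z d).card : ℝ)) ≤
      (Fintype.card K : ℝ) ^ (2 * n) * (Fintype.card K : ℝ) ^ n *
        (1 / (Fintype.card K : ℝ) ^ A.card + 1 / (Fintype.card K : ℝ) ^ B.card) := by
  classical
  set q : ℝ := (Fintype.card K : ℝ) with hq
  have hq0 : 0 < q := by
    rw [hq]
    exact_mod_cast Fintype.card_pos
  have h1 : ∀ z : Fin (2 * n) → K, ((fil fun d : Fin n → K => Van A B z d).card : ℝ) =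
      ∑ d : Fin n → K, if Van A B z d then (1:ℝ) else 0 := by
    intro z
    rw [← Finset.sum_filter, Finset.sum_const, nsmul_eq_mul, mul_one]
    congr 2
  simp only [h1]
  rw [Finset.sum_comm]
  have h2 : ∀ d : Fin n → K, (∑ z : Fin (2 * n) → K, if Van A B z d then (1:ℝ) else 0) ≤
      q ^ (2 * n) * (1 / q ^ A.card) +
        if (∀ j ∈ B, d j = 0) then q ^ (2 * n) else 0 := by
    intro d
    have h3 : (∑ z : Fin (2 * n) → K, if Van A B z d then (1:ℝ) else 0) =
        ((fil fun z : Fin (2 * n) → K => Van A B z d).card : ℝ) := by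
      rw [← Finset.sum_filter, Finset.sum_const, nsmul_eq_mul, mul_one]
      congr 2
    rw [h3]
    by_cases hd : ∀ j ∈ B, d j = 0
    · rw [if_pos hd]
      have h4 : (fil fun z : Fin (2 * n) → K => Van A B z d).card ≤ Fintype.card K ^ (2 * n) := by
        refine (card_le_univ _).trans (le_of_eq ?_)
        rw [Fintype.card_fun, Fintype.card_fin]
      have h5 : ((fil fun z : Fin (2 * n) → K => Van A B z d).card : ℝ) ≤ q ^ (2 * n) := by
        rw [hq]
        exact_mod_cast h4
      have h6 : 0 ≤ q ^ (2 * n) * (1 / q ^ A.card) := by positivity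
      linarith
    · rw [if_neg hd, add_zero]
      push Not at hd
      have h4 := card_van A B d hd
      have h5 : ((fil fun z : Fin (2 * n) → K => Van A B z d).card : ℝ) * q ^ A.card ≤
          q ^ (2 * n) := by
        rw [hq]
        exact_mod_cast h4
      rw [mul_one_div, le_div_iff₀ (by positivity)]
      exact h5
  refine (Finset.sum_le_sum fun d _ => h2 d).trans ?_
  rw [Finset.sum_add_distrib, Finset.sum_const, card_univ, Fintype.card_fun, Fintype.card_fin,
    nsmul_eq_mul, ← Finset.sum_filter, Finset.sum_const, nsmul_eq_mul]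
  -- the vectors that vanish on B
  have h7 : ((univ.filter fun d : Fin n → K => ∀ j ∈ B, d j = 0).card : ℝ) ≤ q ^ n / q ^ B.card := by
    have h8 : (univ.filter fun d : Fin n → K => ∀ j ∈ B, d j = 0).card ≤
        Fintype.card ({l : Fin n // l ∉ B} → K) := by
      rw [← card_univ]
      refine card_le_card_of_injOn (fun z l => z l.1) (fun _ _ => mem_coe.2 (mem_univ _)) ?_
      intro z hz z' hz' h
      rw [mem_coe, mem_filter] at hz hz'
      funext l
      by_cases hl : l ∈ B
      · rw [hz.2 l hl, hz'.2 l hl]
      · exact congrFun h ⟨l, hl⟩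
    have h9 : Fintype.card ({l : Fin n // l ∉ B} → K) * Fintype.card K ^ B.card =
        Fintype.card K ^ n := by
      rw [Fintype.card_fun, Fintype.card_subtype_compl, Fintype.card_fin, ← pow_add]
      congr 1
      rw [Fintype.card_coe]
      have h2 : B.card ≤ n := by
        have := card_le_univ B
        rwa [Fintype.card_fin] at this
      omega
    rw [le_div_iff₀ (by positivity), hq]
    have h10 : (univ.filter fun d : Fin n → K => ∀ j ∈ B, d j = 0).card * Fintype.card K ^ B.card ≤
        Fintype.card K ^ n := by
      rw [← h9]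
      exact Nat.mul_le_mul_right _ h8
    exact_mod_cast h10
  have h11 : ((Fintype.card K ^ n : ℕ) : ℝ) = q ^ n := by rw [hq]; push_cast; rfl
  rw [h11]
  have h12 := mul_le_mul_of_nonneg_right h7 (by positivity : 0 ≤ q ^ (2 * n))
  calc _ ≤ q ^ n * (q ^ (2 * n) * (1 / q ^ A.card)) + q ^ n / q ^ B.card * q ^ (2 * n) := by
        linarith
    _ = _ := by ring

end Pool.Agent.WPP
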