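import Pool.Agent.WPP.Defs
import Pool.Agent.Lib_helper26.TS.Hits

/-!
# A set of blocks such that many words `x i` are read only inside and many words `y j` only outside
-/

set_option autoImplicit false
set_option linter.unusedSectionVars false

namespace Pool.Agent.WPP

open Finset
open Pool.Agent.Lib_helper26.TS (fil mem_fil fil_congr)

variable {n r : ℕ}

/-- the words `x i` not read outside `A` -/
def FX (s : Cell n → Finset (Fin r)) (A : Finset (Fin r)) : Finset (Fin n) :=
  univ.filter fun i => s (Sum.inl i) ⊆ A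

/-- the words `y j` not read in `A` -/
def FY (s : Cell n → Finset (Fin r)) (A : Finset (Fin r)) : Finset (Fin n) :=
  univ.filter fun j => s (Sum.inr (Sum.inl j)) ⊆ Aᶜ

/-- few indices are in many sets -/
theorem few (K : ℕ) (t : Fin n → Finset (Fin r)) (h : ∑ i, (t i).card ≤ K * n) :
    n ≤ 2 * (univ.filter fun i => (t i).card ≤ 2 * K).card := by
  classical
  set G := univ.filter fun i => (t i).card ≤ 2 * K with hG
  have h1 : (univ \ G).card * (2 * K + 1) ≤ K * n := by
    calc (univ \ G).card * (2 * K + 1) = ∑ i ∈ univ \ G, (2 * K + 1) := by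
          rw [Finset.sum_const, smul_eq_mul]
      _ ≤ ∑ i ∈ univ \ G, (t i).card := by
          refine Finset.sum_le_sum fun i hi => ?_
          rw [mem_sdiff, hG, mem_filter] at hi
          by_contra hcon
          exact hi.2 ⟨mem_univ _, by omega⟩
      _ ≤ ∑ i, (t i).card := Finset.sum_le_sum_of_subset (subset_univ _)
      _ ≤ _ := h
  have h2 : (univ \ G).card = n - G.card := by
    rw [card_sdiff_of_subset (subset_univ _), card_univ, Fintype.card_fin]
  have h3 : G.card ≤ n := by
    have := card_le_univ G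
    rwa [Fintype.card_fin] at this
  obtain ⟨c, hc⟩ : ∃ c, n = G.card + c := ⟨n - G.card, by omega⟩
  have h4 : (univ \ G).card = c := by omega
  rw [h4] at h1
  have h5 : c * (2 * K + 1) ≤ K * n := h1
  have h6 : 2 * c * (2 * K + 1) ≤ n * (2 * K + 1) := by nlinarith
  have h7 : 2 * c ≤ n := Nat.le_of_mul_le_mul_right h6 (by omega)
  omega

theorem split (K L : ℕ) (s : Cell n → Finset (Fin r)) (hn : 0 < n)
    (h1 : ∑ e, (s e).card ≤ K * n) (h2 : ∀ b : Fin r, (univ.filter fun e => b ∈ s e).card ≤ L)
    (h3 : L ≤ 1 ∨ 8 * K * L ≤ n) :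
    ∃ A : Finset (Fin r), n ≤ 2 ^ (4 * K + 3) * (FX s A).card ∧
      n ≤ 2 ^ (4 * K + 3) * (FY s A).card := by
  classical
  set sx : Fin n → Finset (Fin r) := fun i => s (Sum.inl i) with hsx
  set sy : Fin n → Finset (Fin r) := fun j => s (Sum.inr (Sum.inl j)) with hsy
  have hsum : ∑ i, (sx i).card + ∑ j, (sy j).card ≤ K * n := by
    refine le_trans ?_ h1
    rw [Fintype.sum_sum_type, Fintype.sum_sum_type]
    show ∑ i, (s (Sum.inl i)).card + ∑ j, (s (Sum.inr (Sum.inl j))).card ≤ _
    omega
  set GX := univ.filter fun i => (sx i).card ≤ 2 * K with hGX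
  set GY := univ.filter fun j => (sy j).card ≤ 2 * K with hGY
  have hX : n ≤ 2 * GX.card := few K sx (by omega)
  have hY : n ≤ 2 * GY.card := few K sy (by omega)
  -- the pairs with a common block
  set Bad : Finset (Fin n × Fin n) := univ.filter fun p => ¬ Disjoint (sx p.1) (sy p.2) with hBad
  set X : Fin r → Finset (Fin n) := fun b => univ.filter fun i => b ∈ sx i with hXb
  set Y : Fin r → Finset (Fin n) := fun b => univ.filter fun j => b ∈ sy j with hYb
  have hXY : ∀ b, (X b).card + (Y b).card ≤ L := by
    intro b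
    refine le_trans ?_ (h2 b)
    have e1 : (X b).card = ((X b).image (Sum.inl : Fin n → Cell n)).card :=
      (card_image_of_injective _ Sum.inl_injective).symm
    have e2 : (Y b).card = ((Y b).image (fun j => (Sum.inr (Sum.inl j) : Cell n))).card :=
      (card_image_of_injective _ fun j j' h => Sum.inl_injective (Sum.inr_injective h)).symm
    rw [e1, e2, ← card_union_of_disjoint]
    · apply card_le_card
      intro e he
      rw [mem_union, mem_image, mem_image] at he
      rw [mem_filter]
      rcases he with ⟨i, hi, rfl⟩ | ⟨j, hj, rfl⟩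
      · exact ⟨mem_univ _, (mem_filter.1 hi).2⟩
      · exact ⟨mem_univ _, (mem_filter.1 hj).2⟩
    · rw [Finset.disjoint_left]
      intro e he he'
      rw [mem_image] at he he'
      obtain ⟨i, -, rfl⟩ := he
      obtain ⟨j, -, h⟩ := he'
      exact absurd h (by simp)
  have hBadle : Bad.card ≤ ∑ b, (X b).card * (Y b).card := by
    have e1 : Bad ⊆ univ.biUnion fun b => X b ×ˢ Y b := by
      intro p hp
      rw [hBad, mem_filter, Finset.not_disjoint_iff] at hp
      obtain ⟨-, b, hb1, hb2⟩ := hp
      rw [mem_biUnion]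
      exact ⟨b, mem_univ _, mem_product.2 ⟨mem_filter.2 ⟨mem_univ _, hb1⟩,
        mem_filter.2 ⟨mem_univ _, hb2⟩⟩⟩
    refine (card_le_card e1).trans (card_biUnion_le.trans (le_of_eq ?_))
    exact Finset.sum_congr rfl fun b _ => card_product _ _
  have hYsum : ∑ b, (Y b).card = ∑ j, (sy j).card := by
    have e1 : ∀ b, (Y b).card = ∑ j, if b ∈ sy j then 1 else 0 := by
      intro b
      rw [hYb, card_filter]
    have e2 : ∀ j, (sy j).card = ∑ b, if b ∈ sy j then 1 else 0 := by
      intro j
      rw [← card_filter, filter_mem_eq_inter, univ_inter]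
    rw [Finset.sum_congr rfl fun b _ => e1 b, Finset.sum_comm]
    exact Finset.sum_congr rfl fun j _ => (e2 j).symm
  have hbad8 : 8 * Bad.card ≤ n * n := by
    rcases h3 with h3 | h3
    · have e1 : ∑ b, (X b).card * (Y b).card = 0 := by
        refine Finset.sum_eq_zero fun b _ => ?_
        have := hXY b
        rcases Nat.eq_zero_or_pos (X b).card with h | h
        · rw [h, zero_mul]
        · have : (Y b).card = 0 := by omega
          rw [this, mul_zero]
      have : Bad.card = 0 := by omega
      rw [this]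
      omega
    · have e1 : ∑ b, (X b).card * (Y b).card ≤ L * (K * n) := by
        calc ∑ b, (X b).card * (Y b).card ≤ ∑ b, L * (Y b).card := by
              refine Finset.sum_le_sum fun b _ => Nat.mul_le_mul_right _ ?_
              have := hXY b
              omega
          _ = L * ∑ b, (Y b).card := by rw [Finset.mul_sum]
          _ ≤ L * (K * n) := by
              apply Nat.mul_le_mul_left
              rw [hYsum]
              omega
      calc 8 * Bad.card ≤ 8 * (L * (K * n)) := by omega
        _ = 8 * K * L * n := by ring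
        _ ≤ n * n := Nat.mul_le_mul_right _ h3
  -- the good pairs
  set P : Finset (Fin n × Fin n) := (GX ×ˢ GY).filter fun p => Disjoint (sx p.1) (sy p.2) with hP
  have hPle : (GX ×ˢ GY).card ≤ P.card + Bad.card := by
    rw [hP, ← card_filter_add_card_filter_not (s := GX ×ˢ GY)
      (fun p : Fin n × Fin n => Disjoint (sx p.1) (sy p.2))]
    apply Nat.add_le_add_left
    exact card_le_card (filter_subset_filter _ (subset_univ _))
  have hP8 : n * n ≤ 8 * P.card := by
    rw [card_product] at hPle
    have e1 : n * n ≤ 2 * GX.card * (2 * GY.card) := Nat.mul_le_mul hX hY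
    have e2 : 2 * GX.card * (2 * GY.card) = 4 * (GX.card * GY.card) := by ring
    omega
  -- the sum over the sets of blocks
  have hsumA : ∑ A : Finset (Fin r), P.card ≤
      ∑ A : Finset (Fin r), 2 ^ (4 * K) * ((FX s A).card * (FY s A).card) := by
    have e1 : ∀ A : Finset (Fin r), (FX s A).card * (FY s A).card =
        ∑ p : Fin n × Fin n, if sx p.1 ⊆ A ∧ sy p.2 ⊆ Aᶜ then 1 else 0 := by
      intro A
      rw [← card_filter, ← card_product]
      congr 1
      ext p
      rw [mem_product, FX, FY, mem_filter, mem_filter, mem_filter]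
      simp only [mem_univ, true_and]
      rfl
    have e2 : ∀ p ∈ P, 2 ^ r ≤ 2 ^ (4 * K) *
        ∑ A : Finset (Fin r), (if sx p.1 ⊆ A ∧ sy p.2 ⊆ Aᶜ then 1 else 0) := by
      intro p hp
      rw [hP, mem_filter, mem_product, hGX, hGY, mem_filter, mem_filter] at hp
      obtain ⟨⟨⟨-, ha⟩, ⟨-, hb⟩⟩, hd⟩ := hp
      have e3 : (∑ A : Finset (Fin r), if sx p.1 ⊆ A ∧ sy p.2 ⊆ Aᶜ then 1 else 0) =
          (Finset.Icc (sx p.1) (sy p.2)ᶜ).card := by
        rw [← card_filter]
        congr 1
        ext A
        rw [mem_filter, mem_Icc]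
        simp only [mem_univ, true_and]
        constructor
        · rintro ⟨h5, h6⟩
          exact ⟨h5, by rw [Finset.subset_compl_comm]; exact h6⟩
        · rintro ⟨h5, h6⟩
          exact ⟨h5, by rw [Finset.subset_compl_comm]; exact h6⟩
      have hsub : sx p.1 ⊆ (sy p.2)ᶜ := by
        intro b hb1
        rw [mem_compl]
        exact Finset.disjoint_left.1 hd hb1
      rw [e3, Finset.card_Icc_finset hsub, ← pow_add]
      apply Nat.pow_le_pow_right (by norm_num)
      rw [card_compl, Fintype.card_fin]
      have h5 : (sx p.1).card ≤ r - (sy p.2).card := by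
        have := card_le_card hsub
        rwa [card_compl, Fintype.card_fin] at this
      have h6 : (sy p.2).card ≤ r := by
        have := card_le_univ (sy p.2)
        rwa [Fintype.card_fin] at this
      omega
    calc ∑ A : Finset (Fin r), P.card = ∑ p ∈ P, 2 ^ r := by
          rw [Finset.sum_const, Finset.sum_const, card_univ, Fintype.card_finset, Fintype.card_fin,
            smul_eq_mul, smul_eq_mul, mul_comm]
      _ ≤ ∑ p ∈ P, 2 ^ (4 * K) *
          ∑ A : Finset (Fin r), (if sx p.1 ⊆ A ∧ sy p.2 ⊆ Aᶜ then 1 else 0) :=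
            Finset.sum_le_sum e2
      _ ≤ ∑ p : Fin n × Fin n, 2 ^ (4 * K) *
          ∑ A : Finset (Fin r), (if sx p.1 ⊆ A ∧ sy p.2 ⊆ Aᶜ then 1 else 0) :=
            Finset.sum_le_sum_of_subset (subset_univ _)
      _ = ∑ A : Finset (Fin r), 2 ^ (4 * K) * ((FX s A).card * (FY s A).card) := by
          rw [← Finset.mul_sum, ← Finset.mul_sum, Finset.sum_comm]
          congr 1
          exact Finset.sum_congr rfl fun A _ => (e1 A).symm
  obtain ⟨A, -, hA⟩ := Finset.exists_le_of_sum_le (s := (univ : Finset (Finset (Fin r))))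
    ⟨∅, mem_univ _⟩ hsumA
  have hFX : (FX s A).card ≤ n := by
    have := card_le_univ (FX s A)
    rwa [Fintype.card_fin] at this
  have hFY : (FY s A).card ≤ n := by
    have := card_le_univ (FY s A)
    rwa [Fintype.card_fin] at this
  have hfin : n * n ≤ 2 ^ (4 * K + 3) * ((FX s A).card * (FY s A).card) := by
    calc n * n ≤ 8 * P.card := hP8
      _ ≤ 8 * (2 ^ (4 * K) * ((FX s A).card * (FY s A).card)) := Nat.mul_le_mul_left _ hA
      _ = _ := by rw [pow_add]; ring
  refine ⟨A, ?_, ?_⟩
  · refine Nat.le_of_mul_le_mul_right (hfin.trans ?_) hn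
    calc 2 ^ (4 * K + 3) * ((FX s A).card * (FY s A).card) ≤
          2 ^ (4 * K + 3) * ((FX s A).card * n) := by gcongr
      _ = _ := by ring
  · refine Nat.le_of_mul_le_mul_right (hfin.trans ?_) hn
    calc 2 ^ (4 * K + 3) * ((FX s A).card * (FY s A).card) ≤
          2 ^ (4 * K + 3) * (n * (FY s A).card) := by gcongr
      _ = _ := by ring

end Pool.Agent.WPP
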