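import Pool.Agent.WPP.Rect
import Pool.Agent.WPP.Split
import Pool.Agent.Lib_helper26.TQ.Runs

/-!
# The labels of the inputs: states at the ends of the blocks, and which blocks read which cells
-/

set_option autoImplicit false
set_option linter.unusedSectionVars false

namespace Pool.Agent.WPP

open Finset
open Pool.Agent.Lib_helper26.TS (fil mem_fil fil_congr)
open Pool.Agent.Lib_helper26.TQ (Mach IsChar segs mem_segs sum_segs seg_le state_mix segs_mix Oc)

variable {K : Type} [Field K] [Fintype K] [DecidableEq K] {n : ℕ} {V : Type}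

/-- the accepted inputs with a given label -/
def Cls (M : Mach (Cell n) K V) (T L r : ℕ) (b : Fin (r + 1) → V)
    (s : Cell n → Finset (Fin r)) (x : Cell n → K) : Prop :=
  ((∀ j : Fin (r + 1), M.state x (min (j.val * L) T) = b j) ∧
    ∀ e, segs M T L r x e = s e) ∧ M.Accepts T x

/-- mixing -/
theorem cls_mix (M : Mach (Cell n) K V) {T L r : ℕ} (hL : 0 < L) (hT : T ≤ r * L)
    (A : Finset (Fin r)) (b : Fin (r + 1) → V) (s : Cell n → Finset (Fin r))
    (a : Cell n → K) (u v u' v' : Fin n → K)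
    (hx : Cls M T L r b s (put (FX s A) (FY s A) a u v'))
    (hy : Cls M T L r b s (put (FX s A) (FY s A) a u' v)) :
    Cls M T L r b s (put (FX s A) (FY s A) a u v) := by
  classical
  set x := put (FX s A) (FY s A) a u v' with hxd
  set y := put (FX s A) (FY s A) a u' v with hyd
  set z := put (FX s A) (FY s A) a u v with hzd
  obtain ⟨⟨hx1, hx2⟩, hx4⟩ := hx
  obtain ⟨⟨hy1, hy2⟩, hy4⟩ := hy
  let ω : Oc r (Cell n) := Sum.elim (fun j => decide (j ∈ A)) fun _ => true
  have hω : ∀ j : Fin r, ω (Sum.inl j) = true ↔ j ∈ A := by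
    intro j
    show decide (j ∈ A) = true ↔ _
    exact decide_eq_true_iff
  have hω' : ∀ j : Fin r, ω (Sum.inl j) = false ↔ j ∉ A := by
    intro j
    show decide (j ∈ A) = false ↔ _
    exact decide_eq_false_iff_not
  have hb : ∀ j, j * L ≤ T → M.state x (j * L) = M.state y (j * L) := by
    intro j hj
    rcases le_or_gt j r with h | h
    · have h1 := hx1 ⟨j, by omega⟩
      have h2 := hy1 ⟨j, by omega⟩
      simp only at h1 h2
      rw [min_eq_left hj] at h1 h2
      rw [h1, h2]
    · have h3 : (r + 1) * L ≤ j * L := Nat.mul_le_mul_right L h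
      have h4 : (r + 1) * L = r * L + L := by ring
      omega
  have hz1 : ∀ e, (∃ j ∈ segs M T L r x e, ω (Sum.inl j) = true) → z e = x e := by
    rintro e ⟨j, hj, hj'⟩
    rw [hx2] at hj
    rw [hω] at hj'
    rcases e with i | jj | l
    · rfl
    · show (if jj ∈ FY s A then v jj else a (Sum.inr (Sum.inl jj))) =
        if jj ∈ FY s A then v' jj else a (Sum.inr (Sum.inl jj))
      rw [if_neg, if_neg] <;>
      · intro h
        rw [FY, mem_filter] at h
        exact (mem_compl.1 (h.2 hj)) hj'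
    · rfl
  have hz2 : ∀ e, (∃ j ∈ segs M T L r y e, ω (Sum.inl j) = false) → z e = y e := by
    rintro e ⟨j, hj, hj'⟩
    rw [hy2] at hj
    rw [hω'] at hj'
    rcases e with i | jj | l
    · show (if i ∈ FX s A then u i else a (Sum.inl i)) =
        if i ∈ FX s A then u' i else a (Sum.inl i)
      rw [if_neg, if_neg] <;>
      · intro h
        rw [FX, mem_filter] at h
        exact hj' (h.2 hj)
    · rfl
    · rfl
  have hst := state_mix M hL ω x y z hb hz1 hz2
  have hsg := segs_mix M hL ω x y z hb hz1 hz2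
  have hbd : ∀ t ≤ T, M.state x t = M.state y t → M.state z t = M.state x t := by
    intro t ht hxy'
    rcases Nat.eq_zero_or_pos r with h0 | h0
    · rw [h0, zero_mul] at hT
      have : t = 0 := by omega
      subst this
      rfl
    · have h1 : min (t / L) (r - 1) < r := by omega
      have h2 := hst t ht ⟨min (t / L) (r - 1), h1⟩
        ((Nat.mul_le_mul_right L (min_le_left _ _)).trans (Nat.div_mul_le_self t L)) (by
          show t ≤ (min (t / L) (r - 1) + 1) * L
          rcases le_total (t / L) (r - 1) with h | h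
          · rw [min_eq_left h]
            have h5 := Nat.div_add_mod t L
            have h6 := Nat.mod_lt t hL
            have h7 : (t / L + 1) * L = L * (t / L) + L := by ring
            omega
          · rw [min_eq_right h, Nat.sub_add_cancel h0]
            exact ht.trans hT)
      rw [h2, ← hxy', ite_self]
  have hbT : M.state x T = M.state y T := by
    have h1 := hx1 ⟨r, by omega⟩
    have h2 := hy1 ⟨r, by omega⟩
    simp only at h1 h2
    rw [min_eq_right hT] at h1 h2
    rw [h1, h2]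
  refine ⟨⟨fun j => ?_, fun e => ?_⟩, ?_⟩
  · rw [hbd _ (min_le_right _ _) (by rw [hx1 j, hy1 j]), hx1 j]
  · ext j
    rw [hsg e j, hx2, hy2, ite_self]
  · show M.acc (M.state z T)
    rw [hbd T le_rfl hbT]
    exact hx4

/-- the bound for one label -/
theorem cls_bound {ψ : K → ℝ} (hψ : IsChar ψ) (h2 : ∀ x : K, x + x = 0)
    (M : Mach (Cell n) K V) {T L r κ m : ℕ} (hL : 0 < L) (hT : T ≤ r * L) (hn : 0 < n)
    (hTn : T ≤ κ * n) (hLn : L ≤ 1 ∨ 8 * κ * L ≤ n)
    (hm : ∀ c : ℕ, n ≤ 2 ^ (4 * κ + 3) * c → m ≤ c)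
    (b : Fin (r + 1) → V) (s : Cell n → Finset (Fin r)) :
    |∑ x ∈ fil (Cls M T L r b s), ψ (hank x)| ≤
      (Fintype.card K : ℝ) ^ (4 * n) * Real.sqrt (2 / (Fintype.card K : ℝ) ^ m) := by
  classical
  set q : ℝ := (Fintype.card K : ℝ) with hq
  have hq1 : 1 ≤ q := by
    rw [hq]
    exact_mod_cast Fintype.card_pos
  rcases (fil (Cls M T L r b s)).eq_empty_or_nonempty with h | ⟨x0, hx0⟩
  · rw [h, Finset.sum_empty, abs_zero]
    positivity
  · have hx : Cls M T L r b s x0 := (mem_fil (P := Cls M T L r b s)).1 hx0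
    obtain ⟨⟨hx1, hx2⟩, hx4⟩ := hx
    have hs : segs M T L r x0 = s := funext hx2
    have h3 : ∑ e, (s e).card ≤ κ * n := by
      rw [← hs]
      exact (sum_segs M T L r x0).trans hTn
    have h4 : ∀ b : Fin r, (univ.filter fun e => b ∈ s e).card ≤ L := by
      intro b
      rw [← hs]
      have h5 := seg_le M T L r hL x0 b
      have h6 : (fil fun e => b ∈ segs M T L r x0 e) =
          univ.filter fun e => b ∈ segs M T L r x0 e := by
        ext e
        rw [mem_filter, mem_fil (P := fun e => b ∈ segs M T L r x0 e)]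
        simp
      rwa [h6] at h5
    obtain ⟨A, hA1, hA2⟩ := split κ L s hn h3 h4 hLn
    have h5 := rect_bound hψ h2 (FX s A) (FY s A) (Cls M T L r b s)
      (fun a u v u' v' => cls_mix M hL hT A b s a u v u' v')
    have h6 : 1 / q ^ (FX s A).card + 1 / q ^ (FY s A).card ≤ 2 / q ^ m := by
      have h7 : 1 / q ^ (FX s A).card ≤ 1 / q ^ m :=
        one_div_le_one_div_of_le (by positivity) (pow_le_pow_right₀ hq1 (hm _ hA1))
      have h8 : 1 / q ^ (FY s A).card ≤ 1 / q ^ m :=
        one_div_le_one_div_of_le (by positivity) (pow_le_pow_right₀ hq1 (hm _ hA2))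
      have h9 : 2 / q ^ m = 1 / q ^ m + 1 / q ^ m := by ring
      linarith
    rw [← hq] at h5
    have h7 : (∑ x ∈ fil (Cls M T L r b s), ψ (hank x)) ^ 2 ≤
        (q ^ (4 * n) * Real.sqrt (2 / q ^ m)) ^ 2 := by
      rw [mul_pow, Real.sq_sqrt (by positivity), ← pow_mul]
      refine h5.trans ?_
      rw [show 4 * n * 2 = 8 * n by ring]
      exact mul_le_mul_of_nonneg_left h6 (by positivity)
    exact abs_le_of_sq_le_sq h7 (by positivity)

/-- the bound for a machine -/
theorem mach_bound [Fintype V] {ψ : K → ℝ} (hψ : IsChar ψ) (h2 : ∀ x : K, x + x = 0)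
    (M : Mach (Cell n) K V) {T L r κ m : ℕ} (hL : 0 < L) (hT : T ≤ r * L) (hn : 0 < n)
    (hTn : T ≤ κ * n) (hLn : L ≤ 1 ∨ 8 * κ * L ≤ n)
    (hm : ∀ c : ℕ, n ≤ 2 ^ (4 * κ + 3) * c → m ≤ c) :
    |∑ x ∈ fil (M.Accepts T), ψ (hank x)| ≤
      (Fintype.card V : ℝ) ^ (r + 1) * 2 ^ (r * (4 * n)) *
      ((Fintype.card K : ℝ) ^ (4 * n) * Real.sqrt (2 / (Fintype.card K : ℝ) ^ m)) := by
  classical
  set lab : (Cell n → K) → (Fin (r + 1) → V) × (Cell n → Finset (Fin r)) := fun x =>
    (fun j => M.state x (min (j.val * L) T), segs M T L r x) with hlab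
  have e1 : ∑ x ∈ fil (M.Accepts T), ψ (hank x) =
      ∑ l : (Fin (r + 1) → V) × (Cell n → Finset (Fin r)),
        ∑ x ∈ fil (Cls M T L r l.1 l.2), ψ (hank x) := by
    rw [← Finset.sum_fiberwise (fil (M.Accepts T)) lab]
    refine Finset.sum_congr rfl fun l _ => Finset.sum_congr ?_ fun _ _ => rfl
    ext x
    rw [mem_filter, mem_fil (P := M.Accepts T), mem_fil (P := Cls M T L r l.1 l.2)]
    constructor
    · rintro ⟨h3, rfl⟩
      exact ⟨⟨fun _ => rfl, fun _ => rfl⟩, h3⟩
    · rintro ⟨⟨h3, h4⟩, h5⟩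
      exact ⟨h5, Prod.ext (funext h3) (funext h4)⟩
  rw [e1]
  refine (Finset.abs_sum_le_sum_abs _ _).trans ((Finset.sum_le_sum fun l _ =>
    cls_bound hψ h2 M hL hT hn hTn hLn hm l.1 l.2).trans (le_of_eq ?_))
  rw [Finset.sum_const, card_univ, nsmul_eq_mul, Fintype.card_prod, Fintype.card_fun,
    Fintype.card_fun, Fintype.card_finset, Fintype.card_fin, Fintype.card_fin]
  have h3 : Fintype.card (Cell n) = 4 * n := by
    simp only [Fintype.card_sum, Fintype.card_fin]
    ring
  rw [h3]
  push_cast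
  rw [← pow_mul]

end Pool.Agent.WPP
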