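import Pool.Agent.WPP.Lab
import Pool.Agent.Lib_helper26.TB.Gap
import Pool.Agent.Lib_helper26.TQ.Field

/-!
# The lower bound
-/

set_option autoImplicit false
set_option linter.unusedSectionVars false

namespace Pool.Agent.WPP

open Finset
open Pool.Agent.Lib_helper26.TS (fil mem_fil fil_congr)
open Pool.Agent.Lib_helper26.TQ (Mach IsChar isChar_chi chi tr two_zero constM constM_accepts)
open Pool.Agent.Lib_helper26.TB (sg pp_count_gen gap_count)
open Pool.Agent.UM (InPP InGap)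

variable {n w : ℕ} {V : Type}

theorem sg_tr (x : GaloisField 2 w) : sg (tr x) = chi x := by
  unfold sg chi
  rcases Pool.Agent.Lib_helper26.TQ.zmod2 (tr x) with h | h
  · rw [h]
    simp
  · rw [h]
    simp

/-- the blocks -/
theorem blocks (κ n T : ℕ) (hT : T ≤ κ * n) : ∃ L r : ℕ, 0 < L ∧ T ≤ r * L ∧
    (L ≤ 1 ∨ 8 * κ * L ≤ n) ∧ r ≤ 16 * κ ^ 2 + 1 := by
  rcases Nat.eq_zero_or_pos κ with h0 | h0
  · subst h0
    refine ⟨1, 0, one_pos, ?_, Or.inl le_rfl, by omega⟩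
    rw [zero_mul] at hT
    omega
  by_cases hn : n < 16 * κ
  · refine ⟨1, T, one_pos, by omega, Or.inl le_rfl, ?_⟩
    have h1 : κ * n ≤ κ * (16 * κ) := Nat.mul_le_mul_left _ hn.le
    have h2 : κ * (16 * κ) = 16 * κ ^ 2 := by ring
    omega
  · push Not at hn
    set L := n / (8 * κ) with hL
    have h8 : 0 < 8 * κ := by omega
    have hL1 : 2 ≤ L := by
      rw [hL, Nat.le_div_iff_mul_le h8]
      omega
    have hL2 : L * (8 * κ) ≤ n := Nat.div_mul_le_self n (8 * κ)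
    have hL3 : n < (L + 1) * (8 * κ) := by
      have := Nat.lt_div_mul_add (a := n) h8
      rw [← hL] at this
      calc n < L * (8 * κ) + 8 * κ := this
        _ = _ := by ring
    refine ⟨L, T / L + 1, by omega, ?_, Or.inr ?_, ?_⟩
    · have := Nat.lt_div_mul_add (a := T) (b := L) (by omega)
      calc T ≤ T / L * L + L := this.le
        _ = _ := by ring
    · calc 8 * κ * L = L * (8 * κ) := by ring
        _ ≤ n := hL2
    · have h1 : T / L ≤ 16 * κ ^ 2 := by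
        apply Nat.div_le_of_le_mul
        calc T ≤ κ * n := hT
          _ ≤ κ * ((L + 1) * (8 * κ)) := Nat.mul_le_mul_left _ hL3.le
          _ ≤ κ * ((L + L) * (8 * κ)) := by gcongr; omega
          _ = L * (16 * κ ^ 2) := by ring
      omega

/-- the logarithms -/
theorem logs {v W a m w n : ℕ} (hv : 0 < v)
    (h : 1 ≤ 8 * (2 : ℝ) ^ W * ((v : ℝ) ^ a * 2 ^ n * Real.sqrt (2 / ((2 : ℝ) ^ w) ^ m))) :
    (w : ℝ) * m ≤ 7 + 2 * W + 2 * a * Real.logb 2 v + 2 * n := by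
  have hv1 : (0 : ℝ) < v := by exact_mod_cast hv
  have h1 : 1 ≤ (8 * (2 : ℝ) ^ W * ((v : ℝ) ^ a * 2 ^ n * Real.sqrt (2 / ((2 : ℝ) ^ w) ^ m))) ^ 2 :=
    one_le_pow₀ h
  have h2 : (8 * (2 : ℝ) ^ W * ((v : ℝ) ^ a * 2 ^ n * Real.sqrt (2 / ((2 : ℝ) ^ w) ^ m))) ^ 2 =
      ((2 : ℝ) ^ (7 + 2 * W + 2 * n) * (v : ℝ) ^ (2 * a)) / 2 ^ (w * m) := by
    rw [mul_pow, mul_pow, mul_pow, mul_pow, Real.sq_sqrt (by positivity), pow_mul 2 w m]
    rw [show 7 + 2 * W + 2 * n = 6 + (W * 2 + n * 2) + 1 by ring, pow_add, pow_add, pow_add,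
      pow_mul, pow_mul, mul_comm 2 a, pow_mul]
    ring
  rw [h2, one_le_div (by positivity)] at h1
  have h3 := Real.logb_le_logb_of_le (b := 2) (by norm_num) (by positivity) h1
  rw [Real.logb_mul (by positivity) (by positivity), Real.logb_pow, Real.logb_pow, Real.logb_pow,
    Real.logb_self_eq_one (by norm_num)] at h3
  push_cast at h3
  linarith

/-- the inequality between the parameters -/
theorem raw (κ T W : ℕ) [Fintype V] (hn : 0 < n) (hw : 0 < w) (hT : T ≤ κ * n)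
    (h : InPP (Dec (Cell n) (GaloisField 2 w) V T) W TrHank ∨
      InGap (Dec (Cell n) (GaloisField 2 w) V T) W TrHank) :
    (w : ℝ) * n ≤ 2 ^ (4 * κ + 3) * (7 + 2 * W + 2 * (16 * κ ^ 2 + 2) *
      Real.logb 2 (Fintype.card V) + 8 * n * (16 * κ ^ 2 + 1)) := by
  classical
  have : Fintype (GaloisField 2 w) := Fintype.ofFinite _
  obtain ⟨L, r, hL, hTL, hLn, hr⟩ := blocks κ n T hT
  obtain ⟨Dn, hDn⟩ : ∃ Dn : ℕ, Dn = 2 ^ (4 * κ + 3) := ⟨_, rfl⟩
  have hDn0 : 0 < Dn := by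
    rw [hDn]
    positivity
  obtain ⟨m, hm⟩ : ∃ m : ℕ, m = (n + Dn - 1) / Dn := ⟨_, rfl⟩
  have hm1 : ∀ c : ℕ, n ≤ 2 ^ (4 * κ + 3) * c → m ≤ c := by
    intro c hc
    rw [← hDn] at hc
    have h1 : m < c + 1 := by
      rw [hm, Nat.div_lt_iff_lt_mul hDn0]
      have h2 : (c + 1) * Dn = Dn * c + Dn := by ring
      omega
    omega
  have hm2 : n ≤ Dn * m := by
    have h1 := Nat.lt_div_mul_add (a := n + Dn - 1) hDn0
    rw [← hm, mul_comm] at h1
    omega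
  have hcard : (Fintype.card (GaloisField 2 w) : ℝ) = 2 ^ w := by
    have h1 := GaloisField.card 2 w hw.ne'
    rw [Nat.card_eq_fintype_card] at h1
    rw [h1]
    push_cast
    rfl
  set E : ℝ := Real.sqrt (2 / ((2 : ℝ) ^ w) ^ m) with hE
  have hE0 : 0 ≤ E := Real.sqrt_nonneg _
  set v : ℕ := Fintype.card V with hv
  set D : ℝ := (v : ℝ) ^ (r + 1) * 2 ^ (r * (4 * n)) * (((2 : ℝ) ^ w) ^ (4 * n) * E) with hD
  have hmach : ∀ M : Mach (Cell n) (GaloisField 2 w) V,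
      |∑ x ∈ fil (M.Accepts T), sg (tr (hank x))| ≤ D := by
    intro M
    have h1 := mach_bound (κ := κ) (m := m) isChar_chi two_zero M hL hTL hn hT hLn hm1
    rw [hcard] at h1
    rw [hD, hE, hv]
    refine le_trans (le_of_eq ?_) h1
    congr 1
    exact Finset.sum_congr rfl fun x _ => sg_tr _
  have hall : ∀ M : Mach (Cell n) (GaloisField 2 w) V, |∑ x : Cell n → GaloisField 2 w,
      sg (tr (hank x))| ≤ D := by
    intro M
    have h1 := hmach (constM M True)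
    have h2 : (fil fun z : Cell n → GaloisField 2 w => (constM M True).Accepts T z) = univ := by
      ext z
      rw [mem_fil, constM_accepts]
      simp
    rw [h2] at h1
    exact h1
  have hX : (Fintype.card (Cell n → GaloisField 2 w) : ℝ) = ((2 : ℝ) ^ w) ^ (4 * n) := by
    rw [card_cell]
    push_cast
    rw [hcard]
  have hkey : 0 < v ∧ 1 ≤ 8 * (2 : ℝ) ^ W * ((v : ℝ) ^ (r + 1) * 2 ^ (r * (4 * n)) * E) := by
    have hq : (0 : ℝ) < ((2 : ℝ) ^ w) ^ (4 * n) := by positivity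
    rcases h with ⟨P, hP, hL⟩ | ⟨Ω, hΩ, p, P, hP, hp0, hp1, hL⟩
    · obtain ⟨M0, -⟩ := hP ⟨0, by positivity⟩
      have hv0 : 0 < v := Fintype.card_pos_iff.2 ⟨M0.start⟩
      refine ⟨hv0, ?_⟩
      have h1 := pp_count_gen (fun z : Cell n → GaloisField 2 w => tr (hank z)) W P
        (fun z => hL z) D (hall M0) fun ω => by
          obtain ⟨M, hM⟩ := hP ω
          have h2 := hmach M
          have h3 : fil (M.Accepts T) = fil (P ω) := by
            ext x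
            rw [mem_fil, mem_fil]
            exact (hM x).symm
          rw [h3] at h2
          exact h2
      rw [hX, hD] at h1
      have h2 : (2 : ℝ) ^ w ^ 1 = 2 ^ w := by rw [pow_one]
      by_contra hcon
      push Not at hcon
      have h3 := mul_lt_mul_of_pos_right hcon (half_pos hq)
      have h4 : 8 * (2 : ℝ) ^ W * ((v : ℝ) ^ (r + 1) * 2 ^ (r * (4 * n)) * E) *
          (((2 : ℝ) ^ w) ^ (4 * n) / 2) = 4 * 2 ^ W * ((v : ℝ) ^ (r + 1) * 2 ^ (r * (4 * n)) *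
          (((2 : ℝ) ^ w) ^ (4 * n) * E)) := by ring
      rw [h4, one_mul] at h3
      exact absurd h1 (not_le.2 h3)
    · obtain ⟨ω0⟩ : Nonempty Ω := by
        by_contra hne
        rw [not_nonempty_iff] at hne
        rw [Finset.univ_eq_empty, Finset.sum_empty] at hp1
        exact zero_ne_one hp1
      obtain ⟨M0, -⟩ := hP ω0
      have hv0 : 0 < v := Fintype.card_pos_iff.2 ⟨M0.start⟩
      refine ⟨hv0, ?_⟩
      have h1 := gap_count (fun z : Cell n → GaloisField 2 w => tr (hank z)) W P p hp0 hp1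
        (fun z => by
          have h1 := hL z
          refine ⟨fun h2 => (h1.1 h2).trans (le_of_eq ?_),
            fun h2 => (le_of_eq ?_).trans (h1.2 h2)⟩
          · exact Finset.sum_congr rfl fun ω _ => by congr
          · exact Finset.sum_congr rfl fun ω _ => by congr) D (hall M0) fun ω => by
          obtain ⟨M, hM⟩ := hP ω
          have h2 := hmach M
          have h3 : fil (M.Accepts T) = fil (P ω) := by
            ext x
            rw [mem_fil, mem_fil]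
            exact (hM x).symm
          rw [h3] at h2
          exact h2
      rw [hX, hD] at h1
      have h5 : 2 * ((2 : ℝ) ^ w) ^ (4 * n) ≤ 3 * (2 : ℝ) ^ W * ((v : ℝ) ^ (r + 1) *
          2 ^ (r * (4 * n)) * (((2 : ℝ) ^ w) ^ (4 * n) * E)) := by
        have h6 := mul_le_mul_of_nonneg_left h1 (show (0 : ℝ) ≤ 2 ^ W by positivity)
        have h7 : (2 : ℝ) ^ W * (((2 : ℝ) ^ w) ^ (4 * n) * (2 / 2 ^ W)) =
            2 * ((2 : ℝ) ^ w) ^ (4 * n) := by
          field_simp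
        rw [h7] at h6
        refine h6.trans (le_of_eq ?_)
        ring
      have h8 : 0 ≤ (2 : ℝ) ^ W * ((v : ℝ) ^ (r + 1) * 2 ^ (r * (4 * n)) *
          (((2 : ℝ) ^ w) ^ (4 * n) * E)) := by positivity
      have h9 : ((2 : ℝ) ^ w) ^ (4 * n) * 1 ≤ ((2 : ℝ) ^ w) ^ (4 * n) *
          (8 * (2 : ℝ) ^ W * ((v : ℝ) ^ (r + 1) * 2 ^ (r * (4 * n)) * E)) := by
        linarith
      exact le_of_mul_le_mul_left h9 hq
  have h10 := logs hkey.1 hkey.2
  have hs : 0 ≤ Real.logb 2 v := by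
    apply Real.logb_nonneg (by norm_num)
    exact_mod_cast hkey.1
  have hnm : (n : ℝ) ≤ 2 ^ (4 * κ + 3) * m := by
    have h11 : ((n : ℕ) : ℝ) ≤ ((Dn * m : ℕ) : ℝ) := by exact_mod_cast hm2
    rw [hDn] at h11
    push_cast at h11
    exact h11
  have hrr : (r : ℝ) ≤ 16 * κ ^ 2 + 1 := by exact_mod_cast hr
  push_cast at h10
  calc (w : ℝ) * n ≤ w * (2 ^ (4 * κ + 3) * m) := by gcongr
    _ = 2 ^ (4 * κ + 3) * (w * m) := by ring
    _ ≤ 2 ^ (4 * κ + 3) * (7 + 2 * W + 2 * ((r : ℝ) + 1) * Real.logb 2 v +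
        2 * (r * (4 * n))) := by gcongr
    _ ≤ 2 ^ (4 * κ + 3) * (7 + 2 * W + 2 * (16 * κ ^ 2 + 2) * Real.logb 2 v +
        8 * n * (16 * κ ^ 2 + 1)) := by
      refine mul_le_mul_of_nonneg_left ?_ (by positivity)
      have h12 : 2 * ((r : ℝ) + 1) * Real.logb 2 v ≤ 2 * (16 * κ ^ 2 + 2) * Real.logb 2 v := by
        refine mul_le_mul_of_nonneg_right ?_ hs
        linarith
      have h13 : 2 * ((r : ℝ) * (4 * n)) ≤ 8 * n * (16 * κ ^ 2 + 1) := by
        calc 2 * ((r : ℝ) * (4 * n)) = 8 * n * r := by ring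
          _ ≤ _ := by gcongr
      linarith

/-- the lower bound -/
theorem low (k T W : ℕ) [Fintype V] (hk : 1 ≤ k) (hn : 0 < n) (hw : 2 ^ (16 * k + 16) * k ^ 2 ≤ w)
    (hT : T ≤ k * (4 * n))
    (h : InPP (Dec (Cell n) (GaloisField 2 w) V T) W TrHank ∨
      InGap (Dec (Cell n) (GaloisField 2 w) V T) W TrHank) :
    (4 * n * w : ℝ) ≤ 2 ^ (16 * k + 16) * k ^ 2 * (W + Real.logb 2 (Fintype.card V)) := by
  have hw0 : 0 < w := lt_of_lt_of_le (by positivity) hw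
  have h0 := raw (4 * k) T W hn hw0 (hT.trans (le_of_eq (by ring))) h
  have hv : 0 < Fintype.card V := by
    rcases h with ⟨P, hP, -⟩ | ⟨Ω, hΩ, p, P, hP, hp0, hp1, -⟩
    · obtain ⟨M0, -⟩ := hP ⟨0, by positivity⟩
      exact Fintype.card_pos_iff.2 ⟨M0.start⟩
    · obtain ⟨ω0⟩ : Nonempty Ω := by
        by_contra hne
        rw [not_nonempty_iff] at hne
        rw [Finset.univ_eq_empty, Finset.sum_empty] at hp1
        exact zero_ne_one hp1
      obtain ⟨M0, -⟩ := hP ω0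
      exact Fintype.card_pos_iff.2 ⟨M0.start⟩
  have hs : 0 ≤ Real.logb 2 (Fintype.card V) := by
    apply Real.logb_nonneg (by norm_num)
    exact_mod_cast hv
  obtain ⟨s, hs'⟩ : ∃ s, s = Real.logb 2 (Fintype.card V) := ⟨_, rfl⟩
  rw [← hs'] at h0 hs ⊢
  obtain ⟨X, hX⟩ : ∃ X : ℝ, X = 2 ^ (16 * k + 3) := ⟨_, rfl⟩
  have hX0 : 0 < X := by
    rw [hX]
    positivity
  have e1 : (2 : ℝ) ^ (4 * (4 * k) + 3) = X := by
    rw [hX]
    congr 1
    ring
  have e2 : (2 : ℝ) ^ (16 * k + 16) = 8192 * X := by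
    rw [hX, show 16 * k + 16 = 16 * k + 3 + 13 by ring, pow_add _ (16 * k + 3)]
    norm_num
    ring
  have hwR : 8192 * X * (k : ℝ) ^ 2 ≤ w := by
    rw [← e2]
    exact_mod_cast hw
  have hk1 : (1 : ℝ) ≤ (k : ℝ) ^ 2 := by
    have : (1 : ℝ) ≤ k := by exact_mod_cast hk
    nlinarith
  have hn1 : (1 : ℝ) ≤ n := by exact_mod_cast hn
  have hW0 : (0 : ℝ) ≤ W := Nat.cast_nonneg _
  rw [e1] at h0
  rw [e2]
  push_cast at h0
  have h3 : X * (8 * n * (16 * (4 * (k : ℝ)) ^ 2 + 1)) ≤ 2056 / 8192 * (w * n) := by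
    have h4 : X * (8 * n * (16 * (4 * (k : ℝ)) ^ 2 + 1)) ≤ X * (8 * n * (257 * (k : ℝ) ^ 2)) := by
      gcongr
      nlinarith
    have h5 : 8192 * X * (k : ℝ) ^ 2 * n ≤ w * n := by gcongr
    linarith
  have h4 : X * 7 ≤ 7 / 8192 * (w * n) := by
    have h5 : 8192 * X * 1 * 1 ≤ 8192 * X * (k : ℝ) ^ 2 * n := by gcongr
    have h6 : 8192 * X * (k : ℝ) ^ 2 * n ≤ w * n := by gcongr
    linarith
  have h5 : X * (2 * W) ≤ 516 * (X * (k : ℝ) ^ 2 * W) := by
    have h6 : X * 1 * W ≤ X * (k : ℝ) ^ 2 * W := by gcongr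
    have h7 : 0 ≤ X * W := by positivity
    linarith
  have h6 : X * (2 * (16 * (4 * (k : ℝ)) ^ 2 + 2) * s) ≤ 516 * (X * (k : ℝ) ^ 2 * s) := by
    have h7 : 2 * (16 * (4 * (k : ℝ)) ^ 2 + 2) ≤ 516 * (k : ℝ) ^ 2 := by nlinarith
    calc X * (2 * (16 * (4 * (k : ℝ)) ^ 2 + 2) * s) ≤ X * (516 * (k : ℝ) ^ 2 * s) := by gcongr
      _ = _ := by ring
  have h7 : (w : ℝ) * n ≤ 2063 / 8192 * (w * n) + 516 * (X * (k : ℝ) ^ 2 * (W + s)) := by
    have : X * (7 + 2 * (W : ℝ) + 2 * (16 * (4 * (k : ℝ)) ^ 2 + 2) * s +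
        8 * n * (16 * (4 * (k : ℝ)) ^ 2 + 1)) = X * 7 + X * (2 * W) +
        X * (2 * (16 * (4 * (k : ℝ)) ^ 2 + 2) * s) +
        X * (8 * n * (16 * (4 * (k : ℝ)) ^ 2 + 1)) := by ring
    rw [this] at h0
    have e3 : 516 * (X * (k : ℝ) ^ 2 * (W + s)) = 516 * (X * (k : ℝ) ^ 2 * W) +
        516 * (X * (k : ℝ) ^ 2 * s) := by ring
    linarith
  have h8 : 0 ≤ X * (k : ℝ) ^ 2 * (W + s) := by positivity
  have e4 : (4 * n * w : ℝ) = 4 * (w * n) := by ring
  have e5 : 8192 * X * (k : ℝ) ^ 2 * (W + s) = 8192 * (X * (k : ℝ) ^ 2 * (W + s)) := by ring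
  rw [e4, e5]
  linarith

end Pool.Agent.WPP
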