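import Pool.Agent.WPP.Hankel
import Pool.Agent.Lib_helper26.TQ.Rect

/-!
# Character sums of the Hankel form over sets of inputs closed under mixing
-/

set_option autoImplicit false
set_option linter.unusedSectionVars false

namespace Pool.Agent.WPP

open Finset
open Pool.Agent.Lib_helper26.TS (fil mem_fil fil_congr)
open Pool.Agent.Lib_helper26.TQ (IsChar)

variable {K : Type} [Field K] [Fintype K] [DecidableEq K] {n : ℕ}

/-- the input `a` with the words `x i`, `i ∈ A`, and `y j`, `j ∈ B`, replaced -/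
def put (A B : Finset (Fin n)) (a : Cell n → K) (u v : Fin n → K) : Cell n → K
  | Sum.inl i => if i ∈ A then u i else a (Sum.inl i)
  | Sum.inr (Sum.inl j) => if j ∈ B then v j else a (Sum.inr (Sum.inl j))
  | Sum.inr (Sum.inr l) => a (Sum.inr (Sum.inr l))

/-- the replaced words -/
def putX (A : Finset (Fin n)) (a : Cell n → K) (u : Fin n → K) : Fin n → K :=
  fun i => if i ∈ A then a (Sum.inl i) else u i

/-- the replaced words -/
def putY (B : Finset (Fin n)) (a : Cell n → K) (v : Fin n → K) : Fin n → K :=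
  fun j => if j ∈ B then a (Sum.inr (Sum.inl j)) else v j

theorem put_put (A B : Finset (Fin n)) (a : Cell n → K) (u v : Fin n → K) :
    put A B (put A B a u v) (putX A a u) (putY B a v) = a := by
  funext c
  rcases c with i | j | l
  · by_cases h : i ∈ A <;> simp [put, putX, h]
  · by_cases h : j ∈ B <;> simp [put, putY, h]
  · simp [put]

theorem putX_put (A B : Finset (Fin n)) (a : Cell n → K) (u v : Fin n → K) :
    putX A (put A B a u v) (putX A a u) = u := by
  funext i
  by_cases h : i ∈ A <;> simp [put, putX, h]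

theorem putY_put (A B : Finset (Fin n)) (a : Cell n → K) (u v : Fin n → K) :
    putY B (put A B a u v) (putY B a v) = v := by
  funext i
  by_cases h : i ∈ B <;> simp [put, putY, h]

theorem sum_put (A B : Finset (Fin n)) (g : (Cell n → K) → ℝ) :
    ∑ a, ∑ u, ∑ v, g (put A B a u v) = (Fintype.card K : ℝ) ^ (2 * n) * ∑ a, g a := by
  let e : ((Cell n → K) × (Fin n → K) × (Fin n → K)) ≃
      ((Cell n → K) × (Fin n → K) × (Fin n → K)) :=
    { toFun := fun p => (put A B p.1 p.2.1 p.2.2, putX A p.1 p.2.1, putY B p.1 p.2.2)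
      invFun := fun p => (put A B p.1 p.2.1 p.2.2, putX A p.1 p.2.1, putY B p.1 p.2.2)
      left_inv := fun p => Prod.ext (put_put A B p.1 p.2.1 p.2.2)
        (Prod.ext (putX_put A B p.1 p.2.1 p.2.2) (putY_put A B p.1 p.2.1 p.2.2))
      right_inv := fun p => Prod.ext (put_put A B p.1 p.2.1 p.2.2)
        (Prod.ext (putX_put A B p.1 p.2.1 p.2.2) (putY_put A B p.1 p.2.1 p.2.2)) }
  have h1 : ∑ a, ∑ u, ∑ v, g (put A B a u v) =
      ∑ p : (Cell n → K) × (Fin n → K) × (Fin n → K), g (e p).1 := by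
    rw [Fintype.sum_prod_type]
    refine Finset.sum_congr rfl fun a _ => ?_
    rw [Fintype.sum_prod_type]
    rfl
  rw [h1, e.sum_comp (fun p => g p.1), Fintype.sum_prod_type]
  simp only [Finset.sum_const, card_univ, Fintype.card_prod, Fintype.card_fun, Fintype.card_fin,
    nsmul_eq_mul]
  rw [← Finset.mul_sum]
  push_cast
  have h3 : (Fintype.card K : ℝ) ^ (2 * n) = (Fintype.card K : ℝ) ^ n * (Fintype.card K : ℝ) ^ n := by
    rw [two_mul, pow_add]
  rw [h3]

/-- the words `z` -/
def zz (a : Cell n → K) : Fin (2 * n) → K := fun l => a (Sum.inr (Sum.inr l))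

theorem hank_add (h2 : ∀ x : K, x + x = 0) (A B : Finset (Fin n)) (a : Cell n → K)
    (u v v' : Fin n → K) :
    hank (put A B a u v) + hank (put A B a u v') =
      ∑ i ∈ A, u i * (∑ j ∈ B, zz a (ad i j) * (v + v') j) +
        ∑ i ∈ Aᶜ, a (Sum.inl i) * (∑ j ∈ B, zz a (ad i j) * (v + v') j) := by
  classical
  unfold hank
  rw [← Finset.sum_add_distrib]
  have h1 : ∀ i : Fin n, (∑ j : Fin n, put A B a u v (Sum.inr (Sum.inr (ad i j))) *
      put A B a u v (Sum.inl i) * put A B a u v (Sum.inr (Sum.inl j))) +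
      ∑ j : Fin n, put A B a u v' (Sum.inr (Sum.inr (ad i j))) *
        put A B a u v' (Sum.inl i) * put A B a u v' (Sum.inr (Sum.inl j)) =
      (if i ∈ A then u i else a (Sum.inl i)) * ∑ j ∈ B, zz a (ad i j) * (v + v') j := by
    intro i
    rw [← Finset.sum_add_distrib, Finset.mul_sum, ← Finset.sum_subset (Finset.subset_univ B)]
    · refine Finset.sum_congr rfl fun j hj => ?_
      simp only [put, if_pos hj, zz, Pi.add_apply]
      ring
    · intro j _ hj
      simp only [put, if_neg hj]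
      exact h2 _
  rw [Finset.sum_congr rfl fun i _ => h1 i, ← Finset.sum_add_sum_compl A]
  congr 1
  · refine Finset.sum_congr rfl fun i hi => ?_
    rw [if_pos hi]
  · refine Finset.sum_congr rfl fun i hi => ?_
    rw [if_neg (Finset.mem_compl.1 hi)]

/-- the sum over the words `x i`, `i ∈ A` -/
theorem pair_sum {ψ : K → ℝ} (hψ : IsChar ψ) (h2 : ∀ x : K, x + x = 0) (A B : Finset (Fin n))
    (a : Cell n → K) (v v' : Fin n → K) :
    (Van A B (zz a) (v + v') → |∑ u, ψ (hank (put A B a u v)) * ψ (hank (put A B a u v'))| ≤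
      (Fintype.card K : ℝ) ^ n) ∧
    (¬ Van A B (zz a) (v + v') →
      |∑ u, ψ (hank (put A B a u v)) * ψ (hank (put A B a u v'))| ≤ 0) := by
  classical
  have h3 : ∀ u, ψ (hank (put A B a u v)) * ψ (hank (put A B a u v')) =
      ψ (∑ i ∈ A, u i * (∑ j ∈ B, zz a (ad i j) * (v + v') j)) *
        ψ (∑ i ∈ Aᶜ, a (Sum.inl i) * (∑ j ∈ B, zz a (ad i j) * (v + v') j)) := by
    intro u
    rw [← hψ.add, hank_add h2, hψ.add]
  constructor
  · intro _
    refine (Finset.abs_sum_le_sum_abs _ _).trans (le_of_eq ?_)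
    simp only [abs_mul, hψ.abs, mul_one, Finset.sum_const, card_univ, Fintype.card_fun,
      Fintype.card_fin, nsmul_eq_mul]
    push_cast
    rfl
  · intro hv
    rw [Finset.sum_congr rfl fun u _ => h3 u, ← Finset.sum_mul]
    unfold Van at hv
    push Not at hv
    rw [hψ.sum_vec A _ hv, zero_mul, abs_zero]

/-- the sum over a rectangle -/
theorem inner {ψ : K → ℝ} (hψ : IsChar ψ) (h2 : ∀ x : K, x + x = 0) (A B : Finset (Fin n))
    (a : Cell n → K) (α β : (Fin n → K) → ℝ) (hα : ∀ u, |α u| ≤ 1) (hβ : ∀ v, |β v| ≤ 1) :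
    (∑ u, ∑ v, α u * β v * ψ (hank (put A B a u v))) ^ 2 ≤
      (Fintype.card K : ℝ) ^ (3 * n) *
        ((fil fun d : Fin n → K => Van A B (zz a) d).card : ℝ) := by
  classical
  set q : ℝ := (Fintype.card K : ℝ) with hq
  have hq0 : 0 ≤ q := Nat.cast_nonneg _
  have e1 : ∑ u, ∑ v, α u * β v * ψ (hank (put A B a u v)) =
      ∑ u, α u * ∑ v, β v * ψ (hank (put A B a u v)) := by
    refine Finset.sum_congr rfl fun u _ => ?_
    rw [Finset.mul_sum]
    exact Finset.sum_congr rfl fun v _ => by ring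
  rw [e1]
  have hα2 : ∑ u, α u ^ 2 ≤ q ^ n := by
    have h3 : ∀ u ∈ (univ : Finset (Fin n → K)), α u ^ 2 ≤ 1 := by
      intro u _
      have := abs_le.1 (hα u)
      nlinarith
    refine (Finset.sum_le_sum h3).trans (le_of_eq ?_)
    rw [Finset.sum_const, card_univ, Fintype.card_fun, Fintype.card_fin, nsmul_eq_mul, mul_one, hq]
    push_cast
    rfl
  have e2 : ∑ u, (∑ v, β v * ψ (hank (put A B a u v))) ^ 2 ≤
      q ^ n * (q ^ n * ((fil fun d : Fin n → K => Van A B (zz a) d).card : ℝ)) := by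
    have h3 : ∀ u, (∑ v, β v * ψ (hank (put A B a u v))) ^ 2 =
        ∑ v, ∑ v', β v * β v' * (ψ (hank (put A B a u v)) * ψ (hank (put A B a u v'))) := by
      intro u
      rw [sq, Finset.sum_mul_sum]
      exact Finset.sum_congr rfl fun v _ => Finset.sum_congr rfl fun v' _ => by ring
    rw [Finset.sum_congr rfl fun u _ => h3 u, Finset.sum_comm]
    have h4 : ∀ v, ∑ u, ∑ v', β v * β v' * (ψ (hank (put A B a u v)) * ψ (hank (put A B a u v'))) ≤
        q ^ n * ((fil fun d : Fin n → K => Van A B (zz a) d).card : ℝ) := by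
      intro v
      rw [Finset.sum_comm]
      have h5 : ∀ v', ∑ u, β v * β v' * (ψ (hank (put A B a u v)) * ψ (hank (put A B a u v'))) ≤
          if Van A B (zz a) (v + v') then q ^ n else 0 := by
        intro v'
        rw [← Finset.mul_sum]
        refine (le_abs_self _).trans ?_
        rw [abs_mul, abs_mul]
        have h7 : |β v| * |β v'| ≤ 1 := by
          calc |β v| * |β v'| ≤ 1 * 1 :=
                mul_le_mul (hβ v) (hβ v') (abs_nonneg _) zero_le_one
            _ = 1 := one_mul 1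
        calc |β v| * |β v'| * |∑ u, ψ (hank (put A B a u v)) * ψ (hank (put A B a u v'))| ≤
              1 * |∑ u, ψ (hank (put A B a u v)) * ψ (hank (put A B a u v'))| :=
                mul_le_mul_of_nonneg_right h7 (abs_nonneg _)
          _ ≤ _ := by
            rw [one_mul]
            split_ifs with hv
            · exact (pair_sum hψ h2 A B a v v').1 hv
            · exact (pair_sum hψ h2 A B a v v').2 hv
      refine (Finset.sum_le_sum fun v' _ => h5 v').trans (le_of_eq ?_)
      have h8 : ∑ v' : Fin n → K, (if Van A B (zz a) (v + v') then q ^ n else 0) =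
          ∑ d : Fin n → K, if Van A B (zz a) d then q ^ n else 0 :=
        Equiv.sum_comp (Equiv.addLeft v) fun d => if Van A B (zz a) d then q ^ n else 0
      rw [h8, ← Finset.sum_filter, Finset.sum_const, nsmul_eq_mul, mul_comm]
      congr 3
    refine (Finset.sum_le_sum fun v _ => h4 v).trans (le_of_eq ?_)
    rw [Finset.sum_const, card_univ, Fintype.card_fun, Fintype.card_fin, nsmul_eq_mul, hq]
    push_cast
    rfl
  calc (∑ u, α u * ∑ v, β v * ψ (hank (put A B a u v))) ^ 2 ≤
        (∑ u, α u ^ 2) * ∑ u, (∑ v, β v * ψ (hank (put A B a u v))) ^ 2 :=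
          Finset.sum_mul_sq_le_sq_mul_sq _ _ _
    _ ≤ q ^ n * (q ^ n * (q ^ n * ((fil fun d : Fin n → K => Van A B (zz a) d).card : ℝ))) := by
        gcongr
    _ = _ := by ring

/-- sums over `z` -/
theorem sum_zz (g : (Fin (2 * n) → K) → ℝ) :
    ∑ a : Cell n → K, g (zz a) = (Fintype.card K : ℝ) ^ (2 * n) * ∑ z, g z := by
  classical
  have h1 : ∑ a : Cell n → K, g (zz a) =
      ∑ p : (Fin n → K) × (Fin n ⊕ Fin (2 * n) → K), g (fun l => p.2 (Sum.inr l)) := by
    refine Fintype.sum_equiv (Equiv.sumArrowEquivProdArrow (Fin n) (Fin n ⊕ Fin (2 * n)) K) _ _ ?_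
    intro a
    rfl
  have h2 : ∀ f : ℕ → ℕ, ∑ b : Fin n ⊕ Fin (2 * n) → K, g (fun l => b (Sum.inr l)) =
      ∑ p : (Fin n → K) × (Fin (2 * n) → K), g p.2 := by
    intro _
    refine Fintype.sum_equiv (Equiv.sumArrowEquivProdArrow (Fin n) (Fin (2 * n)) K) _ _ ?_
    intro a
    rfl
  rw [h1, Fintype.sum_prod_type]
  simp only [h2 id, Fintype.sum_prod_type, Finset.sum_const, card_univ, Fintype.card_fun,
    Fintype.card_fin, nsmul_eq_mul]
  push_cast
  have h3 : (Fintype.card K : ℝ) ^ (2 * n) = (Fintype.card K : ℝ) ^ n * (Fintype.card K : ℝ) ^ n := by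
    rw [two_mul, pow_add]
  rw [h3, mul_assoc]

theorem card_cell : Fintype.card (Cell n → K) = Fintype.card K ^ (4 * n) := by
  rw [Fintype.card_fun]
  congr 1
  simp only [Fintype.card_sum, Fintype.card_fin]
  ring

/-- the sum over a set of inputs closed under mixing -/
theorem rect_bound {ψ : K → ℝ} (hψ : IsChar ψ) (h2 : ∀ x : K, x + x = 0) (A B : Finset (Fin n))
    (R : (Cell n → K) → Prop)
    (hR : ∀ a u v u' v', R (put A B a u v') → R (put A B a u' v) → R (put A B a u v)) :
    (∑ a ∈ fil R, ψ (hank a)) ^ 2 ≤ (Fintype.card K : ℝ) ^ (8 * n) *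
      (1 / (Fintype.card K : ℝ) ^ A.card + 1 / (Fintype.card K : ℝ) ^ B.card) := by
  classical
  set q : ℝ := (Fintype.card K : ℝ) with hq
  have hq0 : 0 < q := by
    rw [hq]
    exact_mod_cast Fintype.card_pos
  set S := ∑ a ∈ fil R, ψ (hank a) with hS
  have e1 : S = ∑ a : Cell n → K, if R a then ψ (hank a) else 0 := by
    rw [hS, ← Finset.sum_filter]
    congr 1
  have e2 : q ^ (2 * n) * S =
      ∑ a, ∑ u, ∑ v, if R (put A B a u v) then ψ (hank (put A B a u v)) else 0 := by
    rw [e1, sum_put A B (fun a => if R a then ψ (hank a) else 0)]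
  set F : (Cell n → K) → ℝ := fun a =>
    ∑ u, ∑ v, if R (put A B a u v) then ψ (hank (put A B a u v)) else 0 with hF
  have e3 : ∀ a, F a ^ 2 ≤ q ^ (3 * n) *
      ((fil fun d : Fin n → K => Van A B (zz a) d).card : ℝ) := by
    intro a
    let α : (Fin n → K) → ℝ := fun u => if ∃ v, R (put A B a u v) then 1 else 0
    let β : (Fin n → K) → ℝ := fun v => if ∃ u, R (put A B a u v) then 1 else 0
    have h3 : F a = ∑ u, ∑ v, α u * β v * ψ (hank (put A B a u v)) := by
      refine Finset.sum_congr rfl fun u _ => Finset.sum_congr rfl fun v _ => ?_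
      by_cases hr : R (put A B a u v)
      · have h4 : α u = 1 := if_pos ⟨v, hr⟩
        have h5 : β v = 1 := if_pos ⟨u, hr⟩
        rw [if_pos hr, h4, h5]
        ring
      · rw [if_neg hr]
        have h6 : α u * β v = 0 := by
          by_cases h4 : ∃ v, R (put A B a u v)
          · by_cases h5 : ∃ u, R (put A B a u v)
            · obtain ⟨v', hv'⟩ := h4
              obtain ⟨u', hu'⟩ := h5
              exact absurd (hR a u v u' v' hv' hu') hr
            · have : β v = 0 := if_neg h5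
              rw [this, mul_zero]
          · have : α u = 0 := if_neg h4
            rw [this, zero_mul]
        rw [h6, zero_mul]
    rw [h3]
    refine inner hψ h2 A B a α β (fun u => ?_) fun v => ?_
    · simp only [α]
      split_ifs <;> norm_num
    · simp only [β]
      split_ifs <;> norm_num
  have e4 : (q ^ (2 * n) * S) ^ 2 ≤ q ^ (4 * n) * ∑ a, F a ^ 2 := by
    rw [e2]
    refine (sq_sum_le_card_mul_sum_sq (s := (univ : Finset (Cell n → K))) (f := F)).trans (le_of_eq ?_)
    rw [card_univ, card_cell, hq]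
    push_cast
    rfl
  have e5 : ∑ a, F a ^ 2 ≤ q ^ (3 * n) * (q ^ (2 * n) * (q ^ (2 * n) * q ^ n *
      (1 / q ^ A.card + 1 / q ^ B.card))) := by
    refine (Finset.sum_le_sum fun a _ => e3 a).trans ?_
    rw [← Finset.mul_sum, sum_zz fun z => ((fil fun d : Fin n → K => Van A B z d).card : ℝ)]
    have := sum_van (K := K) A B
    gcongr
  have e6 : (q ^ (2 * n)) ^ 2 * S ^ 2 ≤ (q ^ (2 * n)) ^ 2 * (q ^ (8 * n) *
      (1 / q ^ A.card + 1 / q ^ B.card)) := by
    calc (q ^ (2 * n)) ^ 2 * S ^ 2 = (q ^ (2 * n) * S) ^ 2 := by ring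
      _ ≤ q ^ (4 * n) * ∑ a, F a ^ 2 := e4
      _ ≤ q ^ (4 * n) * (q ^ (3 * n) * (q ^ (2 * n) * (q ^ (2 * n) * q ^ n *
          (1 / q ^ A.card + 1 / q ^ B.card)))) := by gcongr
      _ = _ := by
        have h7 : q ^ (4 * n) * (q ^ (3 * n) * (q ^ (2 * n) * (q ^ (2 * n) * q ^ n))) =
            (q ^ (2 * n)) ^ 2 * q ^ (8 * n) := by
          rw [← pow_mul, ← pow_add, ← pow_add, ← pow_add, ← pow_add, ← pow_add]
          congr 1
          ring
        calc _ = (q ^ (4 * n) * (q ^ (3 * n) * (q ^ (2 * n) * (q ^ (2 * n) * q ^ n)))) *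
            (1 / q ^ A.card + 1 / q ^ B.card) := by ring
          _ = _ := by rw [h7]; ring
  exact le_of_mul_le_mul_left e6 (by positivity)

end Pool.Agent.WPP
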